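import Pool.Agent.Work.MP_9d0e17_ap.Interface
import Pool.Agent.Work.LV.W1

/-!
# Block WA: the nonvanishing lemma for the quadratic character
-/

set_option autoImplicit false

namespace Pool.Agent.Work.AP90.helper4

open Finset Polynomial Pool.Agent.Work.LV

/-- The valuation argument. -/
theorem quad_eq_zero {K : Type} [Field K] {f : K[X]} (hf : f ≠ 0) {α : K}
    (hα : Odd (f.rootMultiplicity α)) {κ : K} (hκ : κ ≠ 0) {a b : K[X]}
    (h : f * a ^ 2 = C κ * b ^ 2) : a = 0 ∧ b = 0 := by
  by_cases ha : a = 0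
  · subst ha
    refine ⟨rfl, ?_⟩
    rw [zero_pow two_ne_zero, mul_zero] at h
    have h1 := (mul_eq_zero.mp h.symm).resolve_left (C_ne_zero.mpr hκ)
    exact pow_eq_zero_iff two_ne_zero |>.mp h1
  · exfalso
    have h0 : f * a ^ 2 ≠ 0 := mul_ne_zero hf (pow_ne_zero _ ha)
    have h0' : C κ * b ^ 2 ≠ 0 := by rw [← h]; exact h0
    have h1 := congrArg (fun g => g.rootMultiplicity α) h
    rw [rootMultiplicity_mul h0, rootMultiplicity_mul h0', rm_pow, rm_pow,
      rootMultiplicity_C, zero_add] at h1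
    obtain ⟨k, hk⟩ := hα
    omega

variable {p : ℕ} [Fact p.Prime]

/-- One coefficient: if `a + b g` vanishes modulo `X^p` with `g = f^m`, `2 m = p - 1`. -/
theorem coeff_vanish2 {f : (ZMod p)[X]} {d D m : ℕ} (hd : f.natDegree ≤ d) (hf0 : f.eval 0 ≠ 0)
    {α : ZMod p} (hα : Odd (f.rootMultiplicity α)) (hm : 2 * m + 1 = p)
    (hD : d + 2 * D < p) {a b : (ZMod p)[X]} (ha : a.natDegree ≤ D) (hb : b.natDegree ≤ D)
    (h : (X : (ZMod p)[X]) ^ p ∣ a + b * f ^ m) : a = 0 ∧ b = 0 := by
  have hf : f ≠ 0 := by rintro rfl; simp at hf0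
  set κ := f.eval 0 with hκ
  obtain ⟨g, hg⟩ := pow_p_mod f
  have hg' : f ^ p = X ^ p * g + C κ := by rw [← hg]; ring
  apply quad_eq_zero hf hα hf0
  set N : (ZMod p)[X] := f * a ^ 2 - C κ * b ^ 2 with hN
  have h1 : (X : (ZMod p)[X]) ^ p ∣ N := by
    obtain ⟨u, hu⟩ := h
    have h2 : f * ((a + b * f ^ m) * (a - b * f ^ m)) = f * a ^ 2 - f ^ p * b ^ 2 := by
      have hfp : f ^ (2 * m + 1) = f ^ p := by rw [hm]
      rw [← hfp]; ring
    rw [hu, hg'] at h2
    have h3 : N = X ^ p * (f * (u * (a - b * f ^ m)) + g * b ^ 2) := by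
      rw [hN]
      linear_combination -h2
    rw [h3]
    exact dvd_mul_right _ _
  have h2 : N.natDegree < p := by
    have e1 : (f * a ^ 2).natDegree ≤ d + 2 * D := by
      refine natDegree_mul_le.trans (add_le_add hd ?_)
      exact natDegree_pow_le.trans (Nat.mul_le_mul_left _ ha)
    have e2 : (C κ * b ^ 2).natDegree ≤ d + 2 * D := by
      refine (natDegree_C_mul_le _ _).trans (natDegree_pow_le.trans ?_)
      have := Nat.mul_le_mul_left 2 hb
      omega
    have e5 : N.natDegree ≤ d + 2 * D := by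
      rw [hN]
      exact (natDegree_sub_le _ _).trans (max_le e1 e2)
    omega
  have h3 : N = 0 := by
    by_contra hne
    have := natDegree_le_of_dvd h1 hne
    rw [natDegree_X_pow] at this
    omega
  rw [hN, sub_eq_zero] at h3
  exact h3

theorem stmt_WA : Stmt_WA := by
  intro p _ f d D m J α hd hf0 hα hm hD r hr h0 j
  induction j using Nat.strong_induction_on with
  | _ j ih =>
    intro hj
    have hp : p ≠ 0 := (Fact.out : p.Prime).ne_zero
    -- only the terms with index at least `j` remain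
    have h1 : ∑ k ∈ range J, (∑ i : Fin 2, r i k * f ^ (i.val * m)) * X ^ (k * p) =
        X ^ (j * p) * ∑ k ∈ range (J - j),
          (∑ i : Fin 2, r i (j + k) * f ^ (i.val * m)) * X ^ (k * p) := by
      obtain ⟨t, rfl⟩ := Nat.exists_eq_add_of_le hj.le
      rw [Finset.sum_range_add]
      have h2 : ∑ k ∈ range j, (∑ i : Fin 2, r i k * f ^ (i.val * m)) * X ^ (k * p) = 0 := by
        apply Finset.sum_eq_zero
        intro k hk
        rw [Finset.mem_range] at hk
        have := ih k hk (by omega)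
        simp [this]
      rw [h2, zero_add, Nat.add_sub_cancel_left, Finset.mul_sum]
      apply Finset.sum_congr rfl
      intro k _
      rw [add_mul, pow_add]
      ring
    rw [h1] at h0
    have h2 := (mul_eq_zero.mp h0).resolve_left (pow_ne_zero _ X_ne_zero)
    obtain ⟨t, ht⟩ : ∃ t, J - j = t + 1 := ⟨J - j - 1, by omega⟩
    rw [ht, Finset.sum_range_succ'] at h2
    simp only [zero_mul, pow_zero, mul_one, add_zero] at h2
    have h3 : (X : (ZMod p)[X]) ^ p ∣ ∑ k ∈ range t,
        (∑ i : Fin 2, r i (j + (k + 1)) * f ^ (i.val * m)) * X ^ ((k + 1) * p) := by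
      apply Finset.dvd_sum
      intro k _
      apply Dvd.dvd.mul_left
      exact pow_dvd_pow _ (Nat.le_mul_of_pos_left _ (Nat.succ_pos k))
    have h4 : (X : (ZMod p)[X]) ^ p ∣ ∑ i : Fin 2, r i j * f ^ (i.val * m) := by
      have := dvd_neg.mpr h3
      rwa [← eq_neg_of_add_eq_zero_right h2] at this
    rw [Fin.sum_univ_two] at h4
    simp only [Fin.val_zero, zero_mul, pow_zero, mul_one, Fin.val_one, one_mul] at h4
    obtain ⟨ha, hb⟩ := coeff_vanish2 hd hf0 hα hm hD (hr 0 j) (hr 1 j) h4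
    intro i
    fin_cases i
    · exact ha
    · exact hb

end Pool.Agent.Work.AP90.helper4
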